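import Pool.Agent.Lib.MP_da2c1b_co.All

namespace Pool.Agent.Variants.MP_da2c1b_co.OnlyEllipses

open Pool.Agent.Lib.MP_da2c1b_co

/-- A plane convex body whose packing density is at most three quarters of its covering density
is an ellipse. -/
theorem result (K : Set E) (hc : IsCompact K) (hconv : Convex ℝ K)
    (hne : (interior K).Nonempty) (h : pd K / cd K ≤ 3 / 4) :
    ∃ (c : E) (A : E ≃ₗ[ℝ] E), K = (fun z => c + A z) '' Metric.closedBall 0 1 :=
  main_all K hc hconv hne h

end Pool.Agent.Variants.MP_da2c1b_co.OnlyEllipses
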